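import Pool.Agent.Lib.TWH.H0
import Pool.Agent.Lib.TW.Tr
import Pool.Agent.Lib.TWG.G4
import Pool.Agent.Lib.TWI.I2a
import Pool.Agent.Lib.TW.T1

/-!
# TANK W, row H1: log uniformization gives henselian rationality

`T` = elements of `E` with independent spanning values, `z` the parameters of a chart in which they
are monomials: the values of the `z i` span; they are dependent as `n > r`, one is in the span of
the others.
-/

set_option autoImplicit false

open Polynomial

namespace Pool.Agent.TW

open Pool.Agent.H15JM (RVal)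
open Pool.Agent.LU1 (VPos adj)
open Pool.Agent.LUC (Cl clF lv le_lv lv_nonneg IP QuoIs Par LUs SM)
open Pool.Agent.D2 (Ctx0)
open Pool.Agent.D2P (hen)

universe u

variable {k Ω : Type u} [Field k] [Field Ω] [Algebra k Ω] {v : RVal Ω} {r : ℕ}

namespace H1

/-- A finitely generated field is the field of fractions of a ring `k[A]`, `A` finite, of elements
of value `≥ 0`. -/
theorem exists_quo (v : RVal Ω) {E : IntermediateField k Ω} (hE : E.FG) :
    ∃ A : Finset Ω, (∀ a ∈ A, v.Ge 0 a) ∧
      QuoIs (LUC.adj (algebraMap k Ω).range (A : Set Ω)) E.toSubfield := by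
  classical
  obtain ⟨S, rfl⟩ := hE
  let f : Ω → Ω := fun s => if v.Ge 0 s then s else s⁻¹
  have hf : ∀ s, f s = s ∨ f s = s⁻¹ := fun s => by
    by_cases hs : v.Ge 0 s
    · exact Or.inl (if_pos hs)
    · exact Or.inr (if_neg hs)
  have hnn : ∀ s, v.Ge 0 (f s) := by
    intro s
    by_cases hs : v.Ge 0 s
    · rw [show f s = s from if_pos hs]; exact hs
    · rw [show f s = s⁻¹ from if_neg hs]
      have h1 : s ≠ 0 ∧ v s < 0 := by
        by_contra hcon
        apply hs
        intro h0
        by_contra h1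
        exact hcon ⟨h0, not_le.1 h1⟩
      intro _
      rw [v.map_inv h1.1]
      linarith [h1.2]
  have hadj : IntermediateField.adjoin k ((S.image f : Finset Ω) : Set Ω) =
      IntermediateField.adjoin k (S : Set Ω) := by
    apply le_antisymm
    · rw [IntermediateField.adjoin_le_iff]
      intro x hx
      obtain ⟨s, hs, rfl⟩ := Finset.mem_image.1 (Finset.mem_coe.1 hx)
      have h1 : s ∈ IntermediateField.adjoin k (S : Set Ω) :=
        IntermediateField.subset_adjoin _ _ hs
      rcases hf s with h | h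
      · rw [h]; exact h1
      · rw [h]; exact inv_mem h1
    · rw [IntermediateField.adjoin_le_iff]
      intro s hs
      have h1 : f s ∈ IntermediateField.adjoin k ((S.image f : Finset Ω) : Set Ω) :=
        IntermediateField.subset_adjoin _ _ (Finset.mem_coe.2 (Finset.mem_image_of_mem f hs))
      rcases hf s with h | h
      · rw [h] at h1; exact h1
      · rw [h] at h1
        have h2 := inv_mem h1
        rwa [inv_inv] at h2
  refine ⟨S.image f, ?_, ?_⟩
  · intro a ha
    obtain ⟨s, -, rfl⟩ := Finset.mem_image.1 ha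
    exact hnn s
  · rw [← hadj]
    refine ⟨fun x hx => ?_, fun x hx => ?_⟩
    · rw [TWI.mem_adj_iff] at hx
      exact IntermediateField.algebra_adjoin_le_adjoin k _ hx
    · obtain ⟨a, ha, b, hb, hab⟩ := IntermediateField.mem_adjoin_iff_div.1 hx
      by_cases hb0 : b = 0
      · refine ⟨0, zero_mem _, 1, one_mem _, one_ne_zero, ?_⟩
        rw [hab, hb0, div_zero, zero_div]
      · exact ⟨a, (TWI.mem_adj_iff _ _).2 ha, b, (TWI.mem_adj_iff _ _).2 hb, hb0, hab⟩

/-- The field generated by `z`, one element apart. -/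
theorem kr_succAbove {m : ℕ} (z : Fin (m + 1) → Ω) (j : Fin (m + 1)) :
    kr k z = adj (kr k (z ∘ j.succAbove)) (z j) := by
  apply le_antisymm
  · rw [IntermediateField.adjoin_le_iff]
    rintro _ ⟨i, rfl⟩
    rcases eq_or_ne i j with rfl | hij
    · exact (D2P.mem_adj_self _ _).1
    · obtain ⟨l, rfl⟩ := Fin.exists_succAbove_eq hij
      exact (D2P.mem_adj_self _ _).2 (IntermediateField.subset_adjoin _ _ ⟨l, rfl⟩)
  · refine D2P.adj_le ?_ (IntermediateField.subset_adjoin _ _ ⟨j, rfl⟩)
    rw [IntermediateField.adjoin_le_iff]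
    rintro _ ⟨i, rfl⟩
    exact IntermediateField.subset_adjoin _ _ ⟨_, rfl⟩

/-- The omitted element is transcendental over the field of the others. -/
theorem transc_succAbove {m : ℕ} {z : Fin (m + 1) → Ω} (hz : AlgebraicIndependent k z)
    (j : Fin (m + 1)) : Transcendental (kr k (z ∘ j.succAbove)) (z j) := by
  intro h1
  have h2 : Algebra.trdeg k (kr k z) = Algebra.trdeg k (kr k (z ∘ j.succAbove)) := by
    rw [kr_succAbove z j]
    refine trdeg_eq_of_alg (D2P.mem_adj_self _ _).2 fun a ha => ?_
    have h3 : adj (kr k (z ∘ j.succAbove)) (z j) ≤ acl (kr k (z ∘ j.succAbove)) :=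
      D2P.adj_le (fun b hb => mem_acl.2 (isAlgebraic_algebraMap (A := Ω)
        (⟨b, hb⟩ : kr k (z ∘ j.succAbove)))) (mem_acl.2 h1)
    exact mem_acl.1 (h3 ha)
  have h4 : Algebra.trdeg k (kr k z) = ((m + 1 : ℕ) : Cardinal) := by
    rw [trdeg_adjoin_eq hz.coe_range]
    have := Cardinal.mk_range_eq_of_injective hz.injective
    simpa using this
  have h5 : Algebra.trdeg k (kr k (z ∘ j.succAbove)) ≤ (m : Cardinal) := by
    refine (trdeg_adjoin_le (k := k) (Set.range (z ∘ j.succAbove))).trans ?_
    have h7 := Cardinal.mk_range_le_lift (f := z ∘ j.succAbove)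
    simpa using h7
  rw [← h2, h4] at h5
  have h6 : ((m + 1 : ℕ) : Cardinal.{u}) ≤ (m : Cardinal.{u}) := h5
  rw [Nat.cast_le] at h6
  omega

end H1

open H1

/-- ROW H1. Take `T` with values generating the value group up to torsion, `r` of the parameters
with independent values, and drop one of the others. -/
theorem hrone_of_lus [IsAlgClosed Ω] [IsAlgClosed k] (p : ℕ) [Fact p.Prime] [CharP k p]
    [CharP Ω p] (h : Ctx k v r) {D : ℕ} {E : IntermediateField k Ω} (hE : E.FG) (hfull : Full v E)
    (htr : Algebra.trdeg k E = (r + (D + 1) : ℕ))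
    (hLU : LUs v (algebraMap k Ω).range E.toSubfield) : HRone v E := by
  classical
  obtain ⟨x, hx, hxi, hxs⟩ := hfull.exists_span h
  obtain ⟨A, hA, hQ⟩ := exists_quo v hE
  obtain ⟨n, z, J, O, hM, hdim⟩ := hLU A hA hQ (Finset.univ.image x) (by
    intro t ht
    obtain ⟨i, -, rfl⟩ := Finset.mem_image.1 ht
    exact hx i)
  obtain ⟨g, hg, hg0, -, G, hG, hO⟩ := hM.chart
  -- the generators of the chart
  set F : Finset Ω := A ∪ G.image (fun x => x / g) with hFdef
  have hFcoe : (F : Set Ω) = (A : Set Ω) ∪ (fun x => x / g) '' (G : Set Ω) := by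
    rw [hFdef, Finset.coe_union, Finset.coe_image]
  have hF : ∀ f ∈ F, v.Ge 0 f := by
    intro f hf
    rcases Finset.mem_union.1 hf with hf | hf
    · exact hA f hf
    · obtain ⟨y, hy, rfl⟩ := Finset.mem_image.1 hf
      intro h0
      have hy0 : y ≠ 0 := by
        rintro rfl
        exact h0 (zero_div _)
      rw [v.map_div hy0 hg0]
      have := (hG y hy).2 hy0
      linarith
  have hQF : QuoIs (LUC.adj (algebraMap k Ω).range (F : Set Ω)) E.toSubfield := by
    have hFE : ∀ f ∈ (F : Set Ω), f ∈ E.toSubfield := by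
      intro f hf
      rcases Finset.mem_union.1 (Finset.mem_coe.1 hf) with hf | hf
      · exact hQ.1 f (LUC.mem_adj hf)
      · obtain ⟨y, hy, rfl⟩ := Finset.mem_image.1 hf
        exact div_mem (hQ.1 y (hG y hy).1) (hQ.1 g hg)
    refine ⟨fun f hf => ?_, fun f hf => ?_⟩
    · exact LUC.adj_le (B := E.toSubfield.toSubring)
        (fun x hx => hQ.1 x (LUC.base_le_adj _ _ hx)) hFE hf
    · obtain ⟨a, ha, b, hb, hb0, e⟩ := hQ.2 f hf
      have hle : LUC.adj (algebraMap k Ω).range (A : Set Ω) ≤
          LUC.adj (algebraMap k Ω).range (F : Set Ω) := LUC.adj_mono le_rfl (by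
        rw [hFcoe]
        exact Set.subset_union_left)
      exact ⟨a, hle ha, b, hle hb, hb0, e⟩
  have hO' : O = lv v (LUC.adj (algebraMap k Ω).range (F : Set Ω)) := by rw [hO, hFcoe]
  obtain ⟨m, hm, hm'⟩ := dim_eq_trdeg h.toCtx0 F hF hQF
  have hn : n = r + (D + 1) := by
    rw [← hO', hdim] at hm'
    have h1 : n = m := by exact_mod_cast hm'
    rw [htr] at hm
    have h2 : r + (D + 1) = m := by exact_mod_cast hm
    omega
  subst hn
  have hpar := hM.par
  rw [hO'] at hpar
  obtain ⟨hzi, hhen⟩ := hen_of_chart h.toCtx0 hE htr F hF hQF hpar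
  -- the values of the parameters span
  have hspan : ∀ g : Ω, g ≠ 0 → v g ∈ Submodule.span ℚ (Set.range fun i => v (z i)) := by
    intro g hg
    refine Submodule.span_le.2 ?_ (hxs g hg)
    rintro _ ⟨i, rfl⟩
    obtain ⟨e, u, hu, hu0, hvu, hxe, -⟩ := hM.mono (x i) (Finset.mem_coe.2
      (Finset.mem_image_of_mem x (Finset.mem_univ i)))
    have h1 : v (x i) = ∑ j, (e j : ℚ) • v (z j) := by
      rw [hxe, v.map_mul (Finset.prod_ne_zero_iff.2 fun j _ => zpow_ne_zero _ (hM.par.ne j)) hu0,
        hvu, add_zero, v.map_prod _ _ fun j _ => zpow_ne_zero _ (hM.par.ne j)]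
      refine Finset.sum_congr rfl fun j _ => ?_
      rw [v.map_zpow (hM.par.ne j), Rat.smul_def]
      push_cast
      rfl
    show v (x i) ∈ _
    rw [h1]
    exact Submodule.sum_mem _ fun j _ => Submodule.smul_mem _ _ (Submodule.subset_span ⟨j, rfl⟩)
  -- one of the values is in the span of the others
  have hdep : ¬ LinearIndependent ℚ fun i => v (z i) := by
    intro hli
    have h1 := finrank_span_eq_card hli
    have h2 := finrank_span_eq_card hxi
    have h3 : Submodule.span ℚ (Set.range fun i => v (z i)) =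
        Submodule.span ℚ (Set.range fun i => v (x i)) := by
      apply le_antisymm
      · rw [Submodule.span_le]
        rintro _ ⟨i, rfl⟩
        exact hxs _ (hM.par.ne i)
      · rw [Submodule.span_le]
        rintro _ ⟨i, rfl⟩
        exact hspan _ (hx i).2
    rw [h3, h2, Fintype.card_fin, Fintype.card_fin] at h1
    omega
  rw [linearIndependent_iff_notMem_span] at hdep
  push Not at hdep
  obtain ⟨j, hj⟩ := hdep
  have hrange : Submodule.span ℚ (Set.range fun i => v (z i)) ≤
      Submodule.span ℚ (Set.range fun i => v ((z ∘ j.succAbove) i)) := by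
    have h1 : (fun i => v (z i)) '' (Set.univ \ {j}) ⊆
        Set.range fun i => v ((z ∘ j.succAbove) i) := by
      rintro _ ⟨i, hi, rfl⟩
      obtain ⟨l, rfl⟩ := Fin.exists_succAbove_eq (show i ≠ j from hi.2)
      exact ⟨l, rfl⟩
    rw [Submodule.span_le]
    rintro _ ⟨i, rfl⟩
    rcases eq_or_ne i j with rfl | hij
    · exact Submodule.span_mono h1 hj
    · exact Submodule.subset_span (h1 ⟨i, ⟨Set.mem_univ _, hij⟩, rfl⟩)
  refine ⟨kr k (z ∘ j.succAbove), z j,
    IntermediateField.fg_adjoin_of_finite (Set.finite_range _), ?_, transc_succAbove hzi j, ?_⟩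
  · exact full_of_span (x := z ∘ j.succAbove)
      (fun i => ⟨IntermediateField.subset_adjoin _ _ ⟨i, rfl⟩, hM.par.ne _⟩)
      fun g hg => hrange (hspan g hg)
  · rw [hhen, ← kr_succAbove]

end Pool.Agent.TW
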