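import Pool.Agent.Lib.TWH.H1
import Pool.Agent.Lib.TWH.H2a
import Pool.Agent.Lib.TWR.Defs
import Pool.Agent.Lib.TW.X6

/-!
# TANK W, row H2: the purely inseparable step from log uniformization

`lus_of_cl'`, `lus_of_hen'`, `LU.lus_of'`: as `D2.lus_of_cl`, `lus_of_hen_eq`, `LU.lus_of`, but `Ω`
need not be algebraic over the field.
-/

set_option autoImplicit false

open Polynomial

namespace Pool.Agent.TW

open Pool.Agent.H15JM (RVal)
open Pool.Agent.LU1 (VPos adj)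
open Pool.Agent.LUC (Cl clF lv LUs)
open Pool.Agent.D2 (Ctx0)
open Pool.Agent.D2P (hen)

universe u

variable {k Ω : Type u} [Field k] [Field Ω] [Algebra k Ω] {v : RVal Ω} {r D : ℕ}

/-- Log uniformization does not change in a finite separable extension in the closure (`Ω` need not
be algebraic over `K`). -/
theorem lus_of_cl' [IsAlgClosed Ω] (K K₁ : IntermediateField k Ω)
    (hk : ∀ c : k, v.Ge 0 (algebraMap k Ω c)) (hpos : ∃ a ∈ K, a ≠ 0 ∧ 0 < v a)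
    (hK : K.FG) (hK₁ : K₁.FG)
    (hcl : ∀ a ∈ K, a ∈ Cl v K₁.toSubfield) (hcl₁ : ∀ a ∈ K₁, a ∈ Cl v K.toSubfield)
    (hsep : ∀ a ∈ K, IsSeparable K₁ a) (hsep₁ : ∀ a ∈ K₁, IsSeparable K a)
    (hL : LUs v (algebraMap k Ω).range K₁.toSubfield) :
    LUs v (algebraMap k Ω).range K.toSubfield :=
  D2.lus_of_cl_aux K K₁ hk hpos hK hK₁ hcl hcl₁ hsep hsep₁
    (fun S hS hM hcl => exists_etData_cl' K.toSubfield (K ⊔ K₁).toSubfield
      (le_sup_left : K ≤ K ⊔ K₁) S hS hM hcl) hL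

/-- Log uniformization depends only on the henselization. -/
theorem lus_of_hen' [IsAlgClosed Ω] (h : Ctx0 k v) {E K₁ : IntermediateField k Ω}
    (hE : E.FG) (hK₁ : K₁.FG) (hpos : ∃ a ∈ E, a ≠ 0 ∧ 0 < v a) (hh : hen v E = hen v K₁)
    (hL : LUs v (algebraMap k Ω).range K₁.toSubfield) :
    LUs v (algebraMap k Ω).range E.toSubfield := by
  have h1 : ∀ a ∈ E, a ∈ hen v K₁ := fun a ha => by
    rw [← hh]
    exact D2P.le_hen E ha
  have h2 : ∀ a ∈ K₁, a ∈ hen v E := fun a ha => by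
    rw [hh]
    exact D2P.le_hen K₁ ha
  exact lus_of_cl' E K₁ h.ge hpos hE hK₁
    (fun a ha => (D2P.mem_hen.1 (h1 a ha)).1) (fun a ha => (D2P.mem_hen.1 (h2 a ha)).1)
    (fun a ha => (D2P.mem_hen.1 (h1 a ha)).2) (fun a ha => (D2P.mem_hen.1 (h2 a ha)).2) hL

/-- **Local uniformization gives log uniformization**: `LU` for `E` and for the fields of the
coordinates of the frames of `E` is needed. (`Ω` need not be algebraic over `E`.) -/
theorem LU.lus_of' [IsAlgClosed Ω] [IsAlgClosed k] (p : ℕ) [Fact p.Prime] [CharP k p]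
    [CharP Ω p] (h : Ctx k v r) {E : IntermediateField k Ω} (hE : E.FG)
    (htr : Algebra.trdeg k E = (r + D : ℕ)) (hLU : LU p v r E)
    (hLUK : ∀ F : Fr k v r D, F.IsFr E → LU p v r F.K) :
    LUs v (algebraMap k Ω).range E.toSubfield := by
  obtain ⟨t, ht⟩ := exists_pbasis p hE htr
  obtain ⟨F₁, hF₁, -, -⟩ := hLU D t ht ∅ (fun z hz => absurd hz (Finset.notMem_empty z))
  obtain ⟨l, hl⟩ := P2.exists_pos h F₁
  exact lus_of_hen' h.toCtx0 hE (Est.fg_K F₁)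
    ⟨mx F₁.x l, P2.mx_mem hF₁.x_mem l, P2.mx_ne F₁ l, hl⟩ (hF₁.hen_eq p h)
    (LU.lus_K p h F₁ (hLUK F₁ hF₁))

/-- ROW H2. -/
theorem PIstep.of_lus [IsAlgClosed Ω] [IsAlgClosed k] (p : ℕ) [Fact p.Prime] [CharP k p]
    [CharP Ω p] (h : Ctx k v r) {n : ℕ} (hn : r < n)
    (H : ∀ K₀ : IntermediateField k Ω, K₀.FG → Full v K₀ → Algebra.trdeg k K₀ = n → BD p v K₀ →
      HRone v K₀ → LUs v (algebraMap k Ω).range K₀.toSubfield →
      (∀ m, m < n → LUB p v k r m) →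
      ∀ g : Ω, g ∉ K₀ → g ^ p ∈ K₀ → LUs v (algebraMap k Ω).range (adj K₀ g).toSubfield) :
    PIstep p v k r n := by
  intro K₀ hfg hfull htr hBD hH1 hLU g hgp
  by_cases hg : g ∈ K₀
  · have h1 : adj K₀ g = K₀ := le_antisymm (D2P.adj_le le_rfl hg) (D2P.mem_adj_self _ _).2
    rwa [h1]
  obtain ⟨D, rfl⟩ : ∃ D, n = r + (D + 1) := ⟨n - r - 1, by omega⟩
  have hLUs : LUs v (algebraMap k Ω).range K₀.toSubfield := by
    refine LU.lus_of' p h hfg htr (hLU K₀ hfg hfull htr.le hBD (Or.inr hH1)) fun F hF => ?_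
    refine hLU F.K (Est.fg_K F) (Est.full_K h F) (Est.trdeg_K F).le
      (hBD.congr p (Est.fg_K F) (hF.hen_eq p h)) (Or.inr ?_)
    obtain ⟨N, z, hN, hNf, hz, hh⟩ := hH1
    exact ⟨N, z, hN, hNf, hz, (hF.hen_eq p h).symm.trans hh⟩
  have hLUB : ∀ m, m < r + (D + 1) → LUB p v k r m := by
    intro m hm E hE hEf htrE hBDE
    refine hLU E hE hEf ?_ hBDE (Or.inl ?_)
    · rw [htrE]
      exact_mod_cast hm.le
    · rw [htrE]
      exact_mod_cast hm
  have hL := H K₀ hfg hfull htr hBD hH1 hLUs hLUB g hg hgp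
  refine hrone_of_lus p h (D2P.fg_adj hfg g) (Full.mono (D2P.mem_adj_self _ _).2 hfull)
    (D := D) ?_ hL
  rw [← htr]
  refine trdeg_eq_of_alg (D2P.mem_adj_self _ _).2 fun a ha => ?_
  have h3 : adj K₀ g ≤ acl K₀ := by
    refine D2P.adj_le (fun b hb => mem_acl.2 (isAlgebraic_algebraMap (A := Ω)
      (⟨b, hb⟩ : K₀))) (mem_acl.2 ?_)
    refine ⟨X ^ p - C ⟨g ^ p, hgp⟩, X_pow_sub_C_ne_zero (Fact.out : p.Prime).pos _, ?_⟩
    rw [map_sub, map_pow, aeval_X, aeval_C]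
    exact sub_self _
  exact mem_acl.1 (h3 ha)

end Pool.Agent.TW
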