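import Pool.Agent.Lib.TW.BA
import Pool.Agent.Lib.TW.A2
import Pool.Agent.Lib.TW.Surf2
import Pool.Agent.Lib.LUC.Mods
import Pool.Agent.Lib.LUC.ClDefs

/-!
# TANK W, row H0: the henselization of a field with a chart

`O` is the local ring of a chart of `E`, with residue field `k` and parameters `z`,
`n = trdeg E`. A derivation of `E` over `k(z)` has a multiple with values in `O`, these values are
in all the powers of `(z)`: it is zero. So `E` is separable over `k(z)`; and `E` is in the closure of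
`k(z)`.
-/

set_option autoImplicit false

open Polynomial

namespace Pool.Agent.TW

open Pool.Agent.H15JM (RVal)
open Pool.Agent.LU1 (VPos)
open Pool.Agent.LUC (Cl clF lv le_lv lv_nonneg IP QuoIs Par)
open Pool.Agent.D2 (Ctx0)
open Pool.Agent.D2P (hen)

universe u

variable {k Ω : Type u} [Field k] [Field Ω] [Algebra k Ω] {v : RVal Ω}

namespace H0

/-- `n` elements which generate a field of transcendence degree `n`. -/
theorem indep_of_trdeg {n : ℕ} {s : Fin n → Ω}
    (htr : (n : Cardinal) ≤ Algebra.trdeg k (kr k s)) : AlgebraicIndependent k s := by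
  set E := IntermediateField.adjoin k (Set.range s) with hE
  let z : Fin n → E := fun i => ⟨s i, IntermediateField.subset_adjoin _ _ ⟨i, rfl⟩⟩
  have htop : IntermediateField.adjoin k (Set.range z) = ⊤ := by
    apply IntermediateField.map_injective E.val
    rw [IntermediateField.adjoin_map, ← Set.range_comp, ← AlgHom.fieldRange_eq_map,
      IntermediateField.fieldRange_val]
    rfl
  have halg := Surf.isAlgebraic_adjoin_top htop
  have h1 := (Algebra.IsAlgebraic.isTranscendenceBasis_of_lift_le_trdeg_of_finite k z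
    (by simpa using htr)).1
  have h2 := h1.map' (f := E.val) Subtype.val_injective
  exact h2

/-- A positive lower bound for the values of the parameters. -/
theorem exists_eps {n : ℕ} {z : Fin n → Ω} (hz : ∀ i, 0 < v (z i)) :
    ∃ ε : ℝ, 0 < ε ∧ ∀ i, v.Ge ε (z i) := by
  rcases isEmpty_or_nonempty (Fin n) with hn | hn
  · exact ⟨1, one_pos, fun i => (hn.false i).elim⟩
  · obtain ⟨i₀, hi₀⟩ := Finite.exists_min fun i => v (z i)
    exact ⟨v (z i₀), hz i₀, fun i => RVal.Ge.of_le (hi₀ i)⟩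

/-- The chart is in the closure of `k(z)`. -/
theorem chart_cl (h : Ctx0 k v) {B : Subring Ω} (hk : ∀ c : k, algebraMap k Ω c ∈ B)
    (hB : ∀ f ∈ B, v.Ge 0 f) {n : ℕ} {z : Fin n → Ω} (hz : Par v B z) {f : Ω} (hf : f ∈ B) :
    f ∈ Cl v (kr k z).toSubfield := by
  obtain ⟨ε, hε, hzε⟩ := exists_eps hz.pos
  intro b
  obtain ⟨M, hM⟩ := exists_nat_ge (b / ε)
  have hL : ksub k (Set.range z) ≤ B := by
    rw [ksub, Subring.closure_le]
    rintro _ (⟨c, rfl⟩ | ⟨i, rfl⟩)
    · exact hk c
    · exact hz.mem i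
  obtain ⟨f₀, hf₀, h1⟩ := IP.approx (z := z) hL
    (fun i => Subring.subset_closure (Or.inr ⟨i, rfl⟩)) (fun g hg => by
      obtain ⟨c, hc⟩ := h.residue (hB g hg)
      exact ⟨algebraMap k Ω c, Subring.subset_closure (Or.inl ⟨c, rfl⟩),
        hz.gen _ (sub_mem hg (hk c)) hc⟩) M f hf
  refine ⟨f₀, ?_, ?_⟩
  · have h2 : ksub k (Set.range z) ≤ (kr k z).toSubfield.toSubring := by
      rw [ksub, Subring.closure_le]
      rintro _ (⟨c, rfl⟩ | ⟨i, rfl⟩)
      · exact (kr k z).algebraMap_mem c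
      · exact IntermediateField.subset_adjoin _ _ ⟨i, rfl⟩
    exact h2 hf₀
  · refine (h1.ge hB hzε hz.mem).mono ?_
    rwa [div_le_iff₀ hε] at hM

/-- A derivation with values in the chart which vanishes on `k` and on the parameters. -/
theorem der_zero (h : Ctx0 k v) {B : Subring Ω} (hk : ∀ c : k, algebraMap k Ω c ∈ B)
    (hB : ∀ f ∈ B, v.Ge 0 f) {n : ℕ} {z : Fin n → Ω} (hz : Par v B z) (d : Ω → Ω)
    (hd : ∀ f ∈ B, d f ∈ B) (hadd : ∀ f ∈ B, ∀ g ∈ B, d (f + g) = d f + d g)
    (hmul : ∀ f ∈ B, ∀ g ∈ B, d (f * g) = f * d g + g * d f)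
    (hdk : ∀ c : k, d (algebraMap k Ω c) = 0) (hdz : ∀ i, d (z i) = 0) {f : Ω} (hf : f ∈ B) :
    d f = 0 := by
  classical
  obtain ⟨ε, hε, hzε⟩ := exists_eps hz.pos
  have h0 : d 0 = 0 := by
    have := hdk 0
    rwa [map_zero] at this
  have hsum : ∀ (s : Finset (Fin n)) (F : Fin n → Ω), (∀ i, F i ∈ B) →
      d (∑ i ∈ s, F i) = ∑ i ∈ s, d (F i) := by
    intro s F hF
    induction s using Finset.induction_on with
    | empty => rw [Finset.sum_empty, Finset.sum_empty, h0]
    | insert a s ha ih =>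
      rw [Finset.sum_insert ha, Finset.sum_insert ha,
        hadd _ (hF a) _ (sum_mem fun i _ => hF i), ih]
  have key : ∀ M : ℕ, ∀ g ∈ B, IP B z M (d g) := by
    intro M
    induction M with
    | zero => exact fun g hg => IP.zero_iff.2 (hd g hg)
    | succ M ih =>
      intro g hg
      obtain ⟨c, hc⟩ := h.residue (hB g hg)
      obtain ⟨a, ha, hag⟩ := (IP.one_iff hz.mem).1 (hz.gen _ (sub_mem hg (hk c)) hc)
      have h1 : g = algebraMap k Ω c + ∑ i, a i * z i := by rw [← hag]; ring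
      have h2 : d g = ∑ i, d (a i) * z i := by
        rw [h1, hadd _ (hk c) _ (sum_mem fun i _ => mul_mem (ha i) (hz.mem i)), hdk, zero_add,
          hsum _ _ fun i => mul_mem (ha i) (hz.mem i)]
        refine Finset.sum_congr rfl fun i _ => ?_
        rw [hmul _ (ha i) _ (hz.mem i), hdz, mul_zero, zero_add, mul_comm]
      rw [h2]
      exact IP.sum _ _ fun i _ => (ih (a i) (ha i)).mul (IP.gen (hz.mem i))
  by_contra hne
  obtain ⟨M, hM⟩ := exists_nat_gt (v (d f) / ε)
  have h1 := (key M f hf).ge hB hzε hz.mem hne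
  rw [div_lt_iff₀ hε] at hM
  linarith

end H0

open H0

/-- ROW H0. A chart `O = lv v (k[G])` with parameters `z`, `n = dim O = trdeg E`: `z` is
algebraically independent and `E` is in the field of fractions of the henselian ring of `k[z]`. -/
theorem hen_of_chart [IsAlgClosed Ω] [IsAlgClosed k] (h : Ctx0 k v)
    {E : IntermediateField k Ω} (hE : E.FG) {n : ℕ} (htr : Algebra.trdeg k E = n) (G : Finset Ω)
    (hG : ∀ g ∈ G, v.Ge 0 g)
    (hQ : LUC.QuoIs (LUC.adj (algebraMap k Ω).range (G : Set Ω)) E.toSubfield) {z : Fin n → Ω}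
    (hz : LUC.Par v (lv v (LUC.adj (algebraMap k Ω).range (G : Set Ω))) z) :
    AlgebraicIndependent k z ∧
      hen v E = hen v (IntermediateField.adjoin k (Set.range z)) := by
  classical
  set B := LUC.adj (algebraMap k Ω).range (G : Set Ω) with hBdef
  set O := lv v B with hOdef
  have hkB : ∀ c : k, algebraMap k Ω c ∈ B := fun c => LUC.base_le_adj _ _ ⟨c, rfl⟩
  have hkO : ∀ c : k, algebraMap k Ω c ∈ O := fun c => le_lv _ _ (hkB c)
  have hBnn : ∀ f ∈ B, v.Ge 0 f := LUC.adj_nonneg (by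
    rintro _ ⟨c, rfl⟩
    exact h.ge c) (fun g hg => hG g (Finset.mem_coe.1 hg))
  have hOnn : ∀ f ∈ O, v.Ge 0 f := lv_nonneg hBnn
  have hOE : ∀ f ∈ O, f ∈ E := by
    rintro f ⟨a, ha, b, hb, -, -, rfl⟩
    exact div_mem (hQ.1 a ha) (hQ.1 b hb)
  have hle : kr k z ≤ E := by
    rw [IntermediateField.adjoin_le_iff]
    rintro _ ⟨i, rfl⟩
    exact hOE _ (hz.mem i)
  -- the closure
  have hcl : ∀ a ∈ E, a ∈ Cl v (kr k z).toSubfield := by
    intro a ha
    obtain ⟨b, hb, c, hc, -, rfl⟩ := hQ.2 a ha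
    have h1 : b ∈ clF v (kr k z).toSubfield := chart_cl h hkO hOnn hz (le_lv _ _ hb)
    have h2 : c ∈ clF v (kr k z).toSubfield := chart_cl h hkO hOnn hz (le_lv _ _ hc)
    exact div_mem h1 h2
  -- separability
  let _ : Algebra (kr k z) E := (IntermediateField.inclusion hle).toRingHom.toAlgebra
  have _ : IsScalarTower k (kr k z) E := IsScalarTower.of_algebraMap_eq fun _ => rfl
  have _ : IsScalarTower (kr k z) E Ω := IsScalarTower.of_algebraMap_eq fun _ => rfl
  have _ : Algebra.EssFiniteType k E := IntermediateField.essFiniteType_iff.2 hE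
  have _ : Algebra.EssFiniteType (kr k z) E := Algebra.EssFiniteType.of_comp k (kr k z) E
  have hder : ∀ d : Derivation (kr k z) E E, ∀ x, d x = 0 := by
    intro d
    -- the extension by zero
    let D : Ω → Ω := fun f => if hf : f ∈ E then (d ⟨f, hf⟩ : E) else 0
    have hD : ∀ f (hf : f ∈ E), D f = (d ⟨f, hf⟩ : E) := fun f hf => dif_pos hf
    have hDadd : ∀ f ∈ E, ∀ g ∈ E, D (f + g) = D f + D g := by
      intro f hf g hg
      rw [hD f hf, hD g hg, hD _ (add_mem hf hg)]
      have : (⟨f + g, add_mem hf hg⟩ : E) = ⟨f, hf⟩ + ⟨g, hg⟩ := rfl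
      rw [this, map_add]
      rfl
    have hDmul : ∀ f ∈ E, ∀ g ∈ E, D (f * g) = f * D g + g * D f := by
      intro f hf g hg
      rw [hD f hf, hD g hg, hD _ (mul_mem hf hg)]
      have : (⟨f * g, mul_mem hf hg⟩ : E) = ⟨f, hf⟩ * ⟨g, hg⟩ := rfl
      rw [this, d.leibniz]
      rfl
    have hDK : ∀ f (hf : f ∈ kr k z), D f = 0 := by
      intro f hf
      rw [hD f (hle hf)]
      have : (⟨f, hle hf⟩ : E) = algebraMap (kr k z) E ⟨f, hf⟩ := rfl
      rw [this, d.map_algebraMap]
      rfl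
    have hDE : ∀ f, D f ∈ E := by
      intro f
      by_cases hf : f ∈ E
      · rw [hD f hf]
        exact (d ⟨f, hf⟩).2
      · have : D f = 0 := dif_neg hf
        rw [this]
        exact zero_mem _
    -- the common denominator
    have hden : ∀ T : Finset Ω, ∃ c ∈ B, c ≠ 0 ∧ ∀ g ∈ T, c * D g ∈ B := by
      intro T
      induction T using Finset.induction_on with
      | empty => exact ⟨1, one_mem _, one_ne_zero, fun g hg => absurd hg (Finset.notMem_empty g)⟩
      | insert a T ha ih =>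
        obtain ⟨c, hc, hc0, hcT⟩ := ih
        obtain ⟨b, hb, e, he, he0, hbe⟩ := hQ.2 _ (hDE a)
        refine ⟨c * e, mul_mem hc he, mul_ne_zero hc0 he0, ?_⟩
        intro g hg
        rcases Finset.mem_insert.1 hg with rfl | hg
        · rw [hbe, mul_assoc, mul_div_cancel₀ _ he0]
          exact mul_mem hc hb
        · have h1 : c * e * D g = e * (c * D g) := by ring
          rw [h1]
          exact mul_mem he (hcT g hg)
    obtain ⟨c, hc, hc0, hcG⟩ := hden G
    have hcB : ∀ f ∈ B, f ∈ E ∧ c * D f ∈ B := by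
      intro f hf
      refine LUC.adj_induction (p := fun f => (f ∈ B ∧ f ∈ E) ∧ c * D f ∈ B) ?_ ?_ ?_ ?_ hf |>.imp
        And.right id
      · rintro _ ⟨a, rfl⟩
        refine ⟨⟨hkB a, E.algebraMap_mem a⟩, ?_⟩
        rw [hDK _ ((kr k z).algebraMap_mem a), mul_zero]
        exact zero_mem _
      · intro g hg
        have hgB : g ∈ B := LUC.mem_adj hg
        exact ⟨⟨hgB, hQ.1 g hgB⟩, hcG g (Finset.mem_coe.1 hg)⟩
      · rintro f g ⟨⟨hf, hfE⟩, hf'⟩ ⟨⟨hg, hgE⟩, hg'⟩
        refine ⟨⟨add_mem hf hg, add_mem hfE hgE⟩, ?_⟩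
        rw [hDadd f hfE g hgE, mul_add]
        exact add_mem hf' hg'
      · rintro f g ⟨⟨hf, hfE⟩, hf'⟩ ⟨⟨hg, hgE⟩, hg'⟩
        refine ⟨⟨mul_mem hf hg, mul_mem hfE hgE⟩, ?_⟩
        have h1 : c * D (f * g) = f * (c * D g) + g * (c * D f) := by
          rw [hDmul f hfE g hgE]; ring
        rw [h1]
        exact add_mem (mul_mem hf hg') (mul_mem hg hf')
    have hcO : ∀ f ∈ O, c * D f ∈ O := by
      intro f hf
      have hfE := hOE f hf
      obtain ⟨a, ha, b, hb, hb0, hvb, hab⟩ := hf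
      have h1 : a = f * b := by rw [hab, div_mul_cancel₀ _ hb0]
      have h2 := hDmul f hfE b (hQ.1 b hb)
      rw [← h1] at h2
      have h3 : c * D f = (c * D a - f * (c * D b)) * b⁻¹ := by
        rw [h2]
        field_simp
        ring
      rw [h3]
      refine mul_mem (sub_mem (le_lv _ _ (hcB a ha).2) (mul_mem ?_ (le_lv _ _ (hcB b hb).2))) ?_
      · exact ⟨a, ha, b, hb, hb0, hvb, hab⟩
      · exact LUC.lv_inv (le_lv _ _ hb) hb0 hvb
    have hzero : ∀ f ∈ O, D f = 0 := by
      intro f hf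
      have h1 := der_zero h hkO hOnn hz (fun f => c * D f) hcO
        (fun f hf g hg => by
          show c * D (f + g) = c * D f + c * D g
          rw [hDadd f (hOE f hf) g (hOE g hg), mul_add])
        (fun f hf g hg => by
          show c * D (f * g) = f * (c * D g) + g * (c * D f)
          rw [hDmul f (hOE f hf) g (hOE g hg)]
          ring)
        (fun a => by
          show c * D _ = 0
          rw [hDK _ ((kr k z).algebraMap_mem a), mul_zero])
        (fun i => by
          show c * D _ = 0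
          rw [hDK _ (IntermediateField.subset_adjoin _ _ ⟨i, rfl⟩), mul_zero]) hf
      exact (mul_eq_zero.1 h1).resolve_left hc0
    intro x
    obtain ⟨a, ha, b, hb, hb0, hab⟩ := hQ.2 x x.2
    have h1 : a = x * b := by rw [hab, div_mul_cancel₀ _ hb0]
    have h2 := hDmul x x.2 b (hQ.1 b hb)
    rw [← h1, hzero a (le_lv _ _ ha), hzero b (le_lv _ _ hb), mul_zero, zero_add, eq_comm,
      mul_eq_zero, or_iff_right hb0, hD _ x.2] at h2
    exact Subtype.ext h2
  have hsub : Subsingleton (Ω[E⁄(kr k z)]) := by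
    have h1 : (⊤ : Submodule E (Ω[E⁄(kr k z)])) = ⊥ := by
      rw [← KaehlerDifferential.span_range_derivation, Submodule.span_eq_bot]
      rintro _ ⟨x, rfl⟩
      refine (Module.forall_dual_apply_eq_zero_iff E _).1 fun φ => ?_
      exact hder (φ.compDer (KaehlerDifferential.D (kr k z) E)) x
    exact (Submodule.subsingleton_iff E).1 (subsingleton_of_bot_eq_top h1.symm)
  have hunr : Algebra.FormallyUnramified (kr k z) E := ⟨hsub⟩
  have hsep := (Algebra.FormallyUnramified.iff_isSeparable (kr k z) E).1 hunr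
  have hsep' : ∀ a ∈ E, IsSeparable (kr k z) a := by
    intro a ha
    have h1 := hsep.isSeparable' (⟨a, ha⟩ : E)
    have h2 : minpoly (kr k z) (algebraMap E Ω ⟨a, ha⟩) = minpoly (kr k z) (⟨a, ha⟩ : E) :=
      minpoly.algebraMap_eq (algebraMap E Ω).injective _
    rw [IsSeparable] at h1 ⊢
    rw [← h2] at h1
    exact h1
  refine ⟨?_, ?_⟩
  · apply indep_of_trdeg
    rw [← trdeg_eq_of_alg hle fun a ha => (hsep' a ha).isIntegral.isAlgebraic, htr]
  · exact le_antisymm (D2P.hen_le (D2P.hen_hen _) fun a ha => D2P.mem_hen.2 ⟨hcl a ha, hsep' a ha⟩)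
      (D2P.hen_mono hle)

end Pool.Agent.TW
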